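import Pool.Agent.Work.MP_efd9e3_ag.Co.CoMain

/-!
# MP_efd9e3_ag: geproci sets contain many collinear points

Let `Z ⊂ ℙⁿ`, `n ≥ 3`, be a finite nondegenerate set.  If its projection from a general point `p` is a complete
intersection of degrees `d_1, …, d_{n-1}` in `ℙⁿ⁻¹`, then there is a line of `ℙⁿ` which contains a subset `T` of `Z` with
`Σ d_j - n < (|T| - 1) d_i` for all `i`.  So `|T| ≥ n - 1`; `|T| ≥ 3` unless `n = 3` and `|Z| = 4`; and for `n ≥ 4`,
`|T| ≥ 4` unless `n = 4` and `|Z| = 27`.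

Proof (files in `Pool/Agent/Work/MP_efd9e3_ag/Co/`).  Let `s = Σ d_i - n`.  The relations `Σ_z c_z(p) h(proj_p z) = 0`,
`h` of degree `s`, satisfy `D_z c_z = θ(z) c_z` with `D_z` the derivative in `p` in the direction `z`, and `θ` turns out
to be `dQ/Q` for a product `Q` of linear forms of degree `e`, where `e + 2 = r + s + (n+1)`, `r` the degree of the
`c_z`.
For a linear subspace `U` the excess is `#(factors of Q vanishing on U) - ord_U c_z - codim U` (the largest value for the
`z` in `U`).  The lowest order terms along `U` of the relation give a harmonic function, which shows that the `z` of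
largest pole order lie in `U` and that their relation can be restricted to `U`; if the excess is `k` then some line
contains at least `k + 2` points of `Z`.  Now take `z₀` in `Z` and a form `h₀` of degree `d_i` on the quotient by `z₀`
which vanishes at all points (a specialisation of `f_i`), and look at the relation on lines through `z₀` for
`h₀^k ·` (linear forms), `k = ⌊s / d_i⌋`: the pole at the point `z₀` must be cancelled by poles of other `c_z` of order
more than `k`, which gives lines with at least `k + 2` points.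
-/

set_option autoImplicit false

namespace Pool.Agent.Results.MP_efd9e3_ag.CollinearPoints

theorem result (n : ℕ) (hn : 3 ≤ n) (Z : Finset (Fin (n+1) → ℂ))
    (h0 : ∀ v ∈ Z, v ≠ 0)
    (hZ : ∀ v ∈ Z, ∀ w ∈ Z, ∀ c : ℂ, w = c • v → w = v)
    (hspan : Submodule.span ℂ (Z : Set (Fin (n+1) → ℂ)) = ⊤) :
    ∃ g : MvPolynomial (Fin (n+1)) ℂ, g ≠ 0 ∧
      ∀ p : Fin (n+1) → ℂ, MvPolynomial.eval p g ≠ 0 →
        ∀ π : (Fin (n+1) → ℂ) →ₗ[ℂ] (Fin n → ℂ), LinearMap.ker π = Submodule.span ℂ {p} →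
        ∀ (f : Fin (n-1) → MvPolynomial (Fin n) ℂ) (d : Fin (n-1) → ℕ),
          (∀ i, (f i).IsHomogeneous (d i)) →
          (Ideal.span (Set.range f) : Set (MvPolynomial (Fin n) ℂ)) =
            {q | ∀ v ∈ Z, ∀ c : ℂ, MvPolynomial.eval (c • π v) q = 0} →
          ∃ T : Finset (Fin (n+1) → ℂ), T ⊆ Z ∧
            Module.finrank ℂ (Submodule.span ℂ (T : Set (Fin (n+1) → ℂ))) = 2 ∧
            (∀ i, ∑ j, d j < n + (T.card - 1) * d i) ∧ n ≤ T.card + 1 ∧
            (3 ≤ T.card ∨ (n = 3 ∧ Z.card = 4)) ∧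
            (4 ≤ T.card ∨ n = 3 ∨ (n = 4 ∧ Z.card = 27)) := by
  obtain ⟨m, rfl⟩ : ∃ m, n = m + 1 := ⟨n - 1, by omega⟩
  have hm : 2 ≤ m := by omega
  obtain ⟨g, hg0, hg⟩ := Geproci.lines_aux hm Z h0 hZ hspan
  refine ⟨g, hg0, fun p hp π hπ f d hd hf => ?_⟩
  obtain ⟨hdm, hZc, T, hTZ, hT2, hT⟩ := hg p hp π hπ f d hd hf
  have hdm' : ∀ i : Fin m, m ≤ d i := hdm
  have hZc' : Z.card = ∏ i : Fin m, d i := hZc
  have hT' : ∀ i : Fin m, ∑ j : Fin m, d j < m + 1 + (T.card - 1) * d i := hT
  have hle : m + 1 ≤ T.card + 1 := by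
    have hne : Nonempty (Fin m) := ⟨⟨0, by omega⟩⟩
    obtain ⟨i₀, -, hi₀⟩ := Finset.exists_min_image (Finset.univ : Finset (Fin m)) d ⟨hne.some, Finset.mem_univ _⟩
    have h1 : m * d i₀ ≤ ∑ j : Fin m, d j := by
      calc m * d i₀ = ∑ _j : Fin m, d i₀ := by simp
        _ ≤ ∑ j : Fin m, d j := Finset.sum_le_sum fun j _ => hi₀ j (Finset.mem_univ _)
    have h2 := hT' i₀
    have h3 := hdm' i₀
    by_contra hcon
    obtain ⟨k, rfl⟩ : ∃ k, m = k + 2 := ⟨m - 2, by omega⟩
    have h4 : (T.card - 1) * d i₀ ≤ k * d i₀ := Nat.mul_le_mul_right _ (by omega)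
    have h5 : (k + 2) * d i₀ = k * d i₀ + 2 * d i₀ := by ring
    omega
  refine ⟨T, hTZ, hT2, hT, hle, ?_, ?_⟩
  · by_cases h3 : 3 ≤ T.card
    · exact Or.inl h3
    · right
      have hm2 : m = 2 := by omega
      subst hm2
      refine ⟨rfl, ?_⟩
      have h6 : ∑ j : Fin 2, d j = d (0 : Fin 2) + d (1 : Fin 2) := Fin.sum_univ_two d
      have h7 : ∏ j : Fin 2, d j = d (0 : Fin 2) * d (1 : Fin 2) := Fin.prod_univ_two d
      have h8 := hT' (0 : Fin 2)
      have h9 := hT' (1 : Fin 2)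
      have h10 := hdm' (0 : Fin 2)
      have h11 := hdm' (1 : Fin 2)
      have h12 : T.card - 1 ≤ 1 := by omega
      have h13 : (T.card - 1) * d (0 : Fin 2) ≤ 1 * d (0 : Fin 2) := Nat.mul_le_mul_right _ h12
      have h14 : (T.card - 1) * d (1 : Fin 2) ≤ 1 * d (1 : Fin 2) := Nat.mul_le_mul_right _ h12
      have h15 : d (0 : Fin 2) = 2 := by omega
      have h16 : d (1 : Fin 2) = 2 := by omega
      rw [hZc', h7, h15, h16]
  · by_cases h4 : 4 ≤ T.card
    · exact Or.inl h4
    · right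
      by_cases hm2 : m = 2
      · left
        omega
      · right
        have hm3 : m = 3 := by omega
        subst hm3
        refine ⟨rfl, ?_⟩
        have h6 : ∑ j : Fin 3, d j = d (0 : Fin 3) + d (1 : Fin 3) + d (2 : Fin 3) := Fin.sum_univ_three d
        have h7 : ∏ j : Fin 3, d j = d (0 : Fin 3) * d (1 : Fin 3) * d (2 : Fin 3) := Fin.prod_univ_three d
        have h8 := hT' (0 : Fin 3)
        have h9 := hT' (1 : Fin 3)
        have h10 := hT' (2 : Fin 3)
        have h11 := hdm' (0 : Fin 3)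
        have h12 := hdm' (1 : Fin 3)
        have h13 := hdm' (2 : Fin 3)
        have h14 : T.card - 1 ≤ 2 := by omega
        have h15 : (T.card - 1) * d (0 : Fin 3) ≤ 2 * d (0 : Fin 3) := Nat.mul_le_mul_right _ h14
        have h16 : (T.card - 1) * d (1 : Fin 3) ≤ 2 * d (1 : Fin 3) := Nat.mul_le_mul_right _ h14
        have h17 : (T.card - 1) * d (2 : Fin 3) ≤ 2 * d (2 : Fin 3) := Nat.mul_le_mul_right _ h14
        have h18 : d (0 : Fin 3) = 3 := by omega
        have h19 : d (1 : Fin 3) = 3 := by omega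
        have h20 : d (2 : Fin 3) = 3 := by omega
        rw [hZc', h7, h18, h19, h20]

end Pool.Agent.Results.MP_efd9e3_ag.CollinearPoints
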