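import Pool.Agent.Work.MP_efd9e3_ag.Main

/-!
# MP_efd9e3_ag: the degrees of a general projection which is a complete intersection

Let `Z ⊂ ℙⁿ` (`n ≥ 2`) be a finite nondegenerate set. If its projection from a general point `p` is a
complete intersection of degrees `d_1, …, d_{n-1}` in `ℙⁿ⁻¹`, then every `d_i ≥ n - 1` (and `|Z| = ∏ d_i`).

Proof (see the files in `Pool/Agent/Work/MP_efd9e3_ag/`). Let `A = K[y_1, …, y_n]`, `I = (f_1, …, f_{n-1})` the
ideal of the projected set, `λ` a linear functional with `λ(p) = 1`. Since the ranks of the evaluation maps are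
maximal at the general point `p`, moving `p` in the direction `w` gives, for every form `q ∈ I` of degree `t`, a
form `g` of degree `t` with `g = λ ∂_w q` on `Z`. So `λ`, which is not a linear form on the projected set, is
multiplied into `A` by all partial derivatives of the `f_i`. By linkage (a socle computation) the ideal `𝔞` of all
`a ∈ A` with `λ a ∈ A` on `Z` has a form `a ∉ 𝔞` of degree `Σ d_i - n - 1`. On the other hand the partial
derivatives contain a full system of parameters of degrees `d_k - 1, d_1 - 1, …, d_{n-1} - 1`, so that all forms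
of degree `> (d_k - 1) + Σ (d_i - 1) - n` are in `𝔞`. Hence `d_k ≥ n - 1`.
-/

set_option autoImplicit false

namespace Pool.Agent.Results.MP_efd9e3_ag.DegreeBound

theorem result (n : ℕ) (hn : 2 ≤ n) (Z : Finset (Fin (n+1) → ℂ))
    (h0 : ∀ v ∈ Z, v ≠ 0)
    (hZ : ∀ v ∈ Z, ∀ w ∈ Z, ∀ c : ℂ, w = c • v → w = v)
    (hspan : Submodule.span ℂ (Z : Set (Fin (n+1) → ℂ)) = ⊤) :
    ∃ g : MvPolynomial (Fin (n+1)) ℂ, g ≠ 0 ∧
      ∀ p : Fin (n+1) → ℂ, MvPolynomial.eval p g ≠ 0 →
        ∀ π : (Fin (n+1) → ℂ) →ₗ[ℂ] (Fin n → ℂ), LinearMap.ker π = Submodule.span ℂ {p} →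
        ∀ (f : Fin (n-1) → MvPolynomial (Fin n) ℂ) (d : Fin (n-1) → ℕ),
          (∀ i, (f i).IsHomogeneous (d i)) →
          (Ideal.span (Set.range f) : Set (MvPolynomial (Fin n) ℂ)) =
            {q | ∀ v ∈ Z, ∀ c : ℂ, MvPolynomial.eval (c • π v) q = 0} →
          (∀ i, n - 1 ≤ d i) ∧ Z.card = ∏ i, d i ∧ (n-1)^(n-1) ≤ Z.card := by
  obtain ⟨g, hg0, hg⟩ := Geproci.main hn Z h0 hZ hspan
  refine ⟨g, hg0, fun p hp π hπ f d hd hf => ?_⟩
  obtain ⟨h1, h2⟩ := hg p hp π hπ f d hd hf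
  refine ⟨h1, h2, ?_⟩
  rw [h2]
  calc (n-1)^(n-1) = ∏ _i : Fin (n-1), (n-1) := by simp
    _ ≤ ∏ i, d i := Finset.prod_le_prod' fun i _ => h1 i

end Pool.Agent.Results.MP_efd9e3_ag.DegreeBound
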