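import Pool.Agent.Work.MP_efd9e3_ag.Gp.VFin

/-!
# MP_efd9e3_ag: the smallest degrees of a geproci set

Let `Z ⊂ ℙⁿ`, `n ≥ 4`, be a finite nondegenerate set.  If its projection from a general point `p` is a complete
intersection of degrees `d_1, …, d_{n-1}` in `ℙⁿ⁻¹`, then for every `i` there is a `j ≠ i` with `d_j ≤ d_i + 1`: the two
smallest degrees differ by at most one.  For `n = 3` and degrees `a`, `b` with `b ≥ a + 2` and `b ≥ 2 a - 1` the set `Z`
contains `b` collinear points.

Proof (files in `Pool/Agent/Work/MP_efd9e3_ag/Gp/`).  Let `a = d_i` and suppose that `d_j ≥ a + 2` for all `j ≠ i`.  For a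
general centre `p` the form `F_p` of degree `a` on the quotient by `p` which vanishes on the points is unique, and all
forms of degree `a + 1` are multiples of it.  Take the family `F(p, x)` polynomial in `p` of the smallest degree `α`.
Its derivative in `p` in the direction `x` is a form of degree `a + 1` of the quotient by `p` vanishing on the points, so a
multiple of `F_p`, and by minimality it is zero.  So `F` is a polynomial in the Plücker coordinates of the line `px`, and
`α = a`.
On the other hand let `s = Σ d_i - n`, let `c_z(p)` be the coefficients of the relation of degree `s` of the projected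
points, and `Q` the product of linear forms with `D_z c_z = (D_z Q / Q) c_z`.  The main point (`k_main`) is that an
invariant form `A(p, x)` of degree `(α, β)` which vanishes for all `x` in `Z` has `α < β`, if `3 β ≤ s + 4` and no line
contains more than `s + 2 - β` of the points.  This is shown by induction on `n`: one considers the lowest order term of
`A` at a point `z` of `Z`, and the restriction of the relation to a flat on which the poles of `c_z` accumulate.
-/

set_option autoImplicit false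

namespace Pool.Agent.Results.MP_efd9e3_ag.Gap

theorem result (n : ℕ) (hn : 3 ≤ n) (Z : Finset (Fin (n+1) → ℂ))
    (h0 : ∀ v ∈ Z, v ≠ 0)
    (hZ : ∀ v ∈ Z, ∀ w ∈ Z, ∀ c : ℂ, w = c • v → w = v)
    (hspan : Submodule.span ℂ (Z : Set (Fin (n+1) → ℂ)) = ⊤) :
    ∃ g : MvPolynomial (Fin (n+1)) ℂ, g ≠ 0 ∧
      ∀ p : Fin (n+1) → ℂ, MvPolynomial.eval p g ≠ 0 →
        ∀ π : (Fin (n+1) → ℂ) →ₗ[ℂ] (Fin n → ℂ), LinearMap.ker π = Submodule.span ℂ {p} →
        ∀ (f : Fin (n-1) → MvPolynomial (Fin n) ℂ) (d : Fin (n-1) → ℕ),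
          (∀ i, (f i).IsHomogeneous (d i)) →
          (Ideal.span (Set.range f) : Set (MvPolynomial (Fin n) ℂ)) =
            {q | ∀ v ∈ Z, ∀ c : ℂ, MvPolynomial.eval (c • π v) q = 0} →
          (4 ≤ n → ∀ i, ∃ j, j ≠ i ∧ d j ≤ d i + 1) ∧
          (n = 3 → ∀ i j, d i + 2 ≤ d j → 2 * d i ≤ d j + 1 →
            ∃ T : Finset (Fin (n+1) → ℂ), T ⊆ Z ∧
              Module.finrank ℂ (Submodule.span ℂ (T : Set (Fin (n+1) → ℂ))) = 2 ∧ T.card = d j) := by
  obtain ⟨m, rfl⟩ : ∃ m, n = m + 1 := ⟨n - 1, by omega⟩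
  have hm : 2 ≤ m := by omega
  obtain ⟨g, hg0, hg⟩ := Geproci.gap_aux hm Z h0 hZ hspan
  obtain ⟨g', hg0', hg'⟩ := Geproci.lines_aux hm Z h0 hZ hspan
  refine ⟨g * g', mul_ne_zero hg0 hg0', fun p hp π hπ f d hd hf => ?_⟩
  rw [map_mul] at hp
  have hdm : ∀ i : Fin m, m ≤ d i := (hg' p (right_ne_zero_of_mul hp) π hπ f d hd hf).1
  have key : ∀ i : Fin m, (∀ j, j ≠ i → d i + 2 ≤ d j) → 3 * d i + m ≤ ∑ j : Fin m, d j + 3 →
          ∃ T : Finset (Fin (m+1+1) → ℂ), T ⊆ Z ∧
            Module.finrank ℂ (Submodule.span ℂ (T : Set (Fin (m+1+1) → ℂ))) = 2 ∧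
            ∑ j : Fin m, d j + 2 ≤ T.card + d i + m ∧ ∃ j : Fin m, T.card ≤ d j :=
    hg p (left_ne_zero_of_mul hp) π hπ f d hd hf
  constructor
  · intro hn4
    have main : ∀ i : Fin m, ∃ j : Fin m, j ≠ i ∧ d j ≤ d i + 1 := by
      intro i
      by_contra hcon
      push Not at hcon
      have hgap : ∀ j : Fin m, j ≠ i → d i + 2 ≤ d j := fun j hj => by
        have := hcon j hj
        omega
      obtain ⟨h1, h2⟩ := Geproci.gap_num (m := m) (by omega) d i (hdm i) hgap
      obtain ⟨T, -, -, hT, j, hj⟩ := key i hgap h1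
      have h3 : d j + d i + m < ∑ j : Fin m, d j + 2 := h2 j
      omega
    exact main
  · intro hn3
    have hm2 : m = 2 := by omega
    subst hm2
    have main : ∀ i j : Fin 2, d i + 2 ≤ d j → 2 * d i ≤ d j + 1 →
            ∃ T : Finset (Fin (2+1+1) → ℂ), T ⊆ Z ∧
              Module.finrank ℂ (Submodule.span ℂ (T : Set (Fin (2+1+1) → ℂ))) = 2 ∧ T.card = d j := by
      intro i j hij hij2
      obtain ⟨h1, h2, h3⟩ := Geproci.gap_num2 d i j hij
      obtain ⟨T, hTZ, hT2, hT, k, hk⟩ := key i h1 (by omega)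
      refine ⟨T, hTZ, hT2, ?_⟩
      have := h2 k
      omega
    exact main

end Pool.Agent.Results.MP_efd9e3_ag.Gap
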