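import Pool.Agent.Work.MP_efd9e3_ag.Bg.BigMain

/-!
# MP_efd9e3_ag: there is no nondegenerate geproci set in `ℙⁿ` for `n ≥ 72`

Let `n ≥ 72`.  No finite set of points which spans `ℙⁿ` has a complete intersection as its projection from a general
point.  This is the negation `S00544` of the question, for all `n ≥ 72`.

Proof (files in `Pool/Agent/Work/MP_efd9e3_ag/`).  Let the projection of `Z` from a general point `p` be a complete
intersection of degrees `d_1, …, d_{n-1}`, and `σ = Σ d_i - n`.

(1) `k_main` (Gp/KMain): a form `A(p, x)` of degree `α` in `p` and in `x`, invariant under `p ↦ p + t x`, which vanishes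
for all `x` in `Z`, is zero if `3 α ≤ σ + 4` and `α ≤ σ + 2 - max d_i`.  The proof uses the relation of degree `σ` between
the projected points, the poles of its coefficients as functions of `p` and an induction on `n` by restriction to flats.

(2) Such a form `A ≠ 0` exists if `n ≥ 72` (Bg/): let `P` be a general hyperplane and consider the families `F(w, x)`
of forms of degree `j` on the quotients by the points `w` of `P`, of degree `α` in `w`.  For general `w` the values at the
points of `Z` of the forms of degree `j` are determined by the values at `H` of the points, where `H` is the value at `j`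
of the Hilbert function of the complete intersection.  So there is an `F ≠ 0` which vanishes on `Z` if
`(α + 1) n (1 - P_j) > (n - 1) j`, where `P_j` is the proportion of the exponent vectors of degree `j` in `n` variables
with `a_i < d_i` for `i ≤ n - 1`.  Events of this kind are negatively associated (`box_prod`), and for the largest `α`
allowed in (1) and `j = ⌊8 (α + 1) / 9⌋` the inequality holds if `n ≥ 72` (Bg/Num).  Finally `F` extends to a form `A`
of bidegree `(α, α)` by `F(π(ℓ(x) p - ℓ(p) x), x) = ℓ(x)^j A(p, x)`, where `ℓ` is the equation of `P`.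
-/

set_option autoImplicit false

namespace Pool.Agent.Results.MP_efd9e3_ag.LargeDim

theorem result (n : ℕ) (hn : 72 ≤ n) :
    ¬ ∃ Z : Finset (Fin (n+1) → ℂ),
      (∀ v ∈ Z, v ≠ 0) ∧
      (∀ v ∈ Z, ∀ w ∈ Z, ∀ c : ℂ, w = c • v → w = v) ∧
      Submodule.span ℂ (Z : Set (Fin (n+1) → ℂ)) = ⊤ ∧
      ∃ g : MvPolynomial (Fin (n+1)) ℂ, g ≠ 0 ∧
        ∀ p : Fin (n+1) → ℂ, p ≠ 0 → MvPolynomial.eval p g ≠ 0 →
          ∃ π : (Fin (n+1) → ℂ) →ₗ[ℂ] (Fin n → ℂ),
            LinearMap.ker π = Submodule.span ℂ {p} ∧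
            (∀ v ∈ Z, π v ≠ 0) ∧
            ∃ f : Fin (n-1) → MvPolynomial (Fin n) ℂ, ∃ d : Fin (n-1) → ℕ,
              (∀ i, (f i).IsHomogeneous (d i)) ∧
              (Ideal.span (Set.range f) : Set (MvPolynomial (Fin n) ℂ)) =
                {q | ∀ v ∈ Z, ∀ c : ℂ, MvPolynomial.eval (c • π v) q = 0} := by
  rintro ⟨Z, h0, hZ, hspan, g, hg, hgp⟩
  obtain ⟨m, rfl⟩ : ∃ m, n = m + 1 := ⟨n - 1, by omega⟩
  obtain ⟨g₀, hg₀, hg₀'⟩ := Geproci.big_aux (m := m) (by omega) Z h0 hZ hspan
  have h1 : g * g₀ * MvPolynomial.X (Fin.last (m+1)) ≠ 0 :=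
    mul_ne_zero (mul_ne_zero hg hg₀) (MvPolynomial.X_ne_zero _)
  obtain ⟨p, hp⟩ : ∃ p, MvPolynomial.eval p (g * g₀ * MvPolynomial.X (Fin.last (m+1))) ≠ 0 := by
    by_contra hcon
    push Not at hcon
    exact h1 (MvPolynomial.funext fun x => by rw [hcon x, map_zero])
  rw [map_mul, map_mul, MvPolynomial.eval_X] at hp
  have hp1 := left_ne_zero_of_mul (left_ne_zero_of_mul hp)
  have hp2 := right_ne_zero_of_mul (left_ne_zero_of_mul hp)
  have hp3 : p ≠ 0 := by
    rintro rfl
    exact right_ne_zero_of_mul hp rfl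
  obtain ⟨π, hπ, -, f, d, hd, hf⟩ := hgp p hp3 hp1
  exact hg₀' p hp2 π hπ f d hd hf

end Pool.Agent.Results.MP_efd9e3_ag.LargeDim
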